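import Pool.Agent.H633.BA.Main

set_option autoImplicit false

/-!
MP_baa34e_lc, Q2: the weak Baumgartner axiom for `κ` implies `κ < 𝔟` for all uncountable
`κ < ℵ_ω` and, more generally, unless `ℵ_ω ≤ κ`, `𝔟 < κ`, `cov(M) < κ`, `κ < non(M)` and either
`κ` has countable cofinality or some `μ < κ` has covering number `cof([μ]^ω) ≥ non(M)`.
-/

namespace Pool.Agent.Results.MP_baa34e_lc.BelowAlephOmega

open Cardinal Pool.Agent.R592.Ba Pool.Agent.H42.Bau Pool.Agent.H633.BA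

/-- If `ℵ₀ < κ < 𝔠` and `BA⁻_κ` holds then `κ < 𝔟`, or `κ` is at least `ℵ_ω`, lies strictly
above `𝔟` and `cov(M)` and strictly below `non(M)`, and has countable cofinality or is
larger than some `μ` with `cof([μ]^ω) ≥ non(M)`. -/
theorem result (κ : Cardinal.{0}) (h0 : ℵ₀ < κ) (hc : κ < 𝔠)
    (h : Pool.Agent.R592.Ba.BAm κ (ℕ → Bool)) :
    κ < bnum ∨
      (ℵ_ Ordinal.omega0 ≤ κ ∧ bnum < κ ∧ covM < κ ∧ κ < nonM ∧
        (κ.ord.cof = ℵ₀ ∨ ∃ μ : Cardinal.{0}, μ < κ ∧ nonM ≤ cofc μ.out)) := by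
  rcases remaining h0 hc h with h1 | ⟨h1, h2, h3, h4, h5⟩
  · exact Or.inl h1
  · exact Or.inr ⟨h4, h1, h2, h3, h5⟩

end Pool.Agent.Results.MP_baa34e_lc.BelowAlephOmega
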